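import Pool.Agent.GSK0.Tab2

set_option autoImplicit false
set_option maxRecDepth 100000

noncomputable section

namespace Pool.Agent.GSK0

open Pool.Agent.GSW

theorem u0 : fchk1 (1) 1 (2 ^ 63) (2 ^ 9062) 13 ⟨[⟨J2, rowsOf WQ 0, e0⟩], H0, NN⟩ = true := by
  decide +kernel

theorem u1 : fchk1 (1) 1 (2 ^ 78) (2 ^ 13170) 14 ⟨[⟨J2, rowsOf WQ 1, e1⟩], H1, NN⟩ = true := by
  decide +kernel

theorem u2 : fchk1 (1) 1 (2 ^ 70) (2 ^ 10070) 13 ⟨[⟨J2, rowsOf WQ 2, e2⟩], H2, NN⟩ = true := by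
  decide +kernel

theorem u3 : fchk1 (1) 1 (2 ^ 66) (2 ^ 9493) 13 ⟨[⟨J2, rowsOf WQ 3, e3⟩], H3, NN⟩ = true := by
  decide +kernel

theorem u4 : fchk1 (1) 1 (2 ^ 72) (2 ^ 10358) 13 ⟨[⟨J2, rowsOf WQ 4, e4⟩], H4, NN⟩ = true := by
  decide +kernel

theorem u5 : fchk1 (1) 1 (2 ^ 72) (2 ^ 10357) 13 ⟨[⟨J2, rowsOf WQ 5, e5⟩], H5, NN⟩ = true := by
  decide +kernel

theorem u6 : fchk1 (1) 1 (2 ^ 73) (2 ^ 10502) 13 ⟨[⟨J2, rowsOf WQ 6, e6⟩], H6, NN⟩ = true := by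
  decide +kernel

theorem u7 : fchk1 (1) 1 (2 ^ 70) (2 ^ 10070) 13 ⟨[⟨J2, rowsOf WQ 7, e7⟩], H7, NN⟩ = true := by
  decide +kernel


end Pool.Agent.GSK0
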