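import Pool.Agent.GSX.Cub

set_option autoImplicit false
set_option maxRecDepth 100000

noncomputable section

namespace Pool.Agent.GSK0

/-- the cubic -/
def X : GSX.Cub ℤ where
  a := ![![0, 2, 0], ![8, -3, 0], ![0, -8, 0], ![24, 0, -2], ![-16, 4, 2], ![48, 36, -8]]
  b := ![![4, 2, 2], ![-2, 1, 0], ![-32, -8, 0], ![6, 2, 0], ![-4, 0, 0], ![-32, 12, 0]]


end Pool.Agent.GSK0
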