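import Pool.Agent.GSW.DTree

set_option autoImplicit false
set_option maxRecDepth 100000

noncomputable section

namespace Pool.Agent.GSK0

open Pool.Agent.GSW

/-- the datum -/
def D : GSR.Dat E where
  B := !![E.c 12, E.c (-4); E.c (-2), E.c (-26)]
  N := !![E.c (-26), E.c (-2); E.c (-40), E.c 8]
  E := !![E.c (-78), E.c 26; E.c 18, E.c 154]
  γ := ![E.c (-129), E.c (-84), E.c 43, E.c (-1)]
  δ := ![E.c 103, E.c 142, E.c (-31), E.c (-3)]
  t := !![E.c 0, E.c 104614, E.c (-1005), E.c (-4016), E.c 22542, E.c (-146438); E.c 0, E.c 0,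
    E.c 38113, E.c 0, E.c (-7254), E.c 52286; E.c 0, E.c 0, E.c 0, E.c 1632, E.c (-8304),
    E.c 54336; E.c 0, E.c 0, E.c 0, E.c 0, E.c 976, E.c (-6784); E.c 0, E.c 0, E.c 0, E.c 0,
    E.c 0, E.c 0; E.c 0, E.c 0, E.c 0, E.c 0, E.c 0, E.c 0]

/-- the datum with its parameters -/
def T : DT where
  D := D
  n := ![E.c 160 * E.s, E.c (-10) * E.t + E.c 5 * E.s]
  dl := E.c 2 + E.c 2 * E.t + E.c (-3) * E.s


end Pool.Agent.GSK0
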