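import Pool.Agent.GSK0.Link1
import Pool.Agent.GSK0.Cert1
import Pool.Agent.GSK0.Link2
import Pool.Agent.GSK0.Cert2

set_option autoImplicit false
set_option maxRecDepth 100000

noncomputable section

namespace Pool.Agent.GSK0

open Pool.Agent.GSW

theorem hden (z : ℂ) (hz : z * z = ((1 : ℤ) : ℂ)) (k : Fin 8) :
    E.ev GSX.sK GSX.tK (zK z) (tE ((![e0, e1, e2, e3, e4, e5, e6, e7] : Fin 8 → Tb) k)) ≠ 0 := by
  haveI : Fact (Nat.Prime 5) := ⟨by norm_num⟩
  fin_cases k
  · exact ev_ne (p := 5) (a := 0) (b := 1) (u := 1) (by decide +kernel) (e := tE e0)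
      (by decide +kernel) (by decide +kernel) hz
  · exact ev_ne (p := 5) (a := 0) (b := 1) (u := 1) (by decide +kernel) (e := tE e1)
      (by decide +kernel) (by decide +kernel) hz
  · exact ev_ne (p := 5) (a := 0) (b := 1) (u := 1) (by decide +kernel) (e := tE e2)
      (by decide +kernel) (by decide +kernel) hz
  · exact ev_ne (p := 5) (a := 0) (b := 1) (u := 1) (by decide +kernel) (e := tE e3)
      (by decide +kernel) (by decide +kernel) hz
  · exact ev_ne (p := 5) (a := 0) (b := 1) (u := 1) (by decide +kernel) (e := tE e4)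
      (by decide +kernel) (by decide +kernel) hz
  · exact ev_ne (p := 5) (a := 0) (b := 1) (u := 1) (by decide +kernel) (e := tE e5)
      (by decide +kernel) (by decide +kernel) hz
  · exact ev_ne (p := 5) (a := 0) (b := 1) (u := 1) (by decide +kernel) (e := tE e6)
      (by decide +kernel) (by decide +kernel) hz
  · exact ev_ne (p := 5) (a := 0) (b := 1) (u := 1) (by decide +kernel) (e := tE e7)
      (by decide +kernel) (by decide +kernel) hz

theorem cert : Cert (1) (xh2 X) T J1 J2 where
  cst := by decide +kernel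
  c1 := by
    refine ⟨XN, NN, V, A, ![G0, G1, G2, G3, G4, G5, G6, G7, G8], h8, p1, rfl, ?_, xV, xA, ?_, ?_,
      id_of1 t8, WQ, ![H0, H1, H2, H3, H4, H5, H6, H7], ![e0, e1, e2, e3, e4, e5, e6, e7], p2, rfl,
      ?_, ?_, ?_⟩
    · intro l
      fin_cases l
      exacts [x0, x1, x2, x3, x4, x5, x6, x7]
    · decide +kernel
    · intro l
      fin_cases l
      exacts [id_of1 t0, id_of1 t1, id_of1 t2, id_of1 t3, id_of1 t4, id_of1 t5, id_of1 t6,
        id_of1 t7]
    · intro l
      fin_cases l
      exacts [y0, y1, y2, y3, y4, y5, y6, y7]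
    · intro l
      fin_cases l
      exacts [id_of1 u0, id_of1 u1, id_of1 u2, id_of1 u3, id_of1 u4, id_of1 u5, id_of1 u6,
        id_of1 u7]
    · intro z hz
      exact hden z hz

end Pool.Agent.GSK0
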