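import Pool.Agent.GSW.Fin
import Pool.Agent.GSK0.Tab2

set_option autoImplicit false
set_option maxRecDepth 100000

noncomputable section

namespace Pool.Agent.GSK0

open Pool.Agent Pool.Agent.GSW GSX Pool.Agent.GSR

instance fp : Fact (Nat.Prime 1000003) := ⟨by norm_num⟩

theorem hu : rtChk 1000003 1 (1) = true := by decide +kernel

/-- residues of the datum -/
def Dn1 : Dat ℕ := ⟨!![12, 999999; 1000001, 999977], !![999977, 1000001; 999963, 8], !![999925,
  26; 18, 154], ![999874, 999919, 43, 1000002], ![103, 142, 999972, 1000000],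
    !![0, 104614, 998998, 995987, 22542, 853565; 0, 0, 38113, 0, 992749, 52286; 0, 0, 0, 1632,
      991699, 54336; 0, 0, 0, 0, 976, 993219; 0, 0, 0, 0, 0, 0; 0, 0, 0, 0, 0, 0]⟩

theorem hd1 : datChk 1000003 1 D Dn1 = true := by decide +kernel

/-- residues of the datum -/
def Dn2 : Dat ℕ := ⟨!![12, 999999; 1000001, 999977], !![999977, 1000001; 999963, 8], !![999925,
  26; 18, 154], ![999874, 999919, 43, 1000002], ![103, 142, 999972, 1000000],
    !![0, 104614, 998998, 995987, 22542, 853565; 0, 0, 38113, 0, 992749, 52286; 0, 0, 0, 1632,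
      991699, 54336; 0, 0, 0, 0, 976, 993219; 0, 0, 0, 0, 0, 0; 0, 0, 0, 0, 0, 0]⟩

theorem hd2 : datChk 1000003 1000002 D Dn2 = true := by decide +kernel

/-- intermediate values -/
def g1 : GSE.GZ.GC (ZMod 1000003) where
  c := ![1, 0]
  s := 911821
  m := 1
  n := 2
  z := !![999924, 26; 18, 153]
  w1 := !![55789, 647859; 827131, 700833]
  w2 := !![939430, 353312; 179856, 286282]
  h1 := ![![0, 0, 0, 0, 84168, 999363], ![147574, 685744, 0, 0, 692543, 0], ![0, 0, 147574,
    318875, 290504, 0]]
  h2 := ![![0, 0, 0, 0, 907807, 999363], ![383303, 940502, 0, 0, 632544, 0], ![0, 0, 383303,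
    446254, 764874, 0]]
  M := !![127379, 773812, 77998; 826948, 0, 937232; 517893, 472158, 0]
  N := !![0, 715328, 376718; 559501, 922564, 341469; 926225, 517995, 634657]
  y := ![364173, 641780, 368550]
  p := ![147574, 685744, 295148, 637750, 357716, 999363]
  q := ![461355, 562781, 896855, 418302, 144299, 929982]
  f1 := 722075
  f2 := 330245
  v := ![451478, 59549, 361814, 220180, 125516, 889162]
  e0 := ![808876, 472145, 580560, 751300, 43378, 0]
  e1 := ![292848, 97622, 744176, 811493, 0, 0]
  e2 := ![898020, 723415, 155272, 385564, 736090, 0]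
  mm := 754931
  p0 := 895172
  p1 := 448182
  M0 := 354421
  M1 := 719301

theorem ok1 : g1.Ok (Dn1.map (fun a : ℕ => (a : ZMod 1000003))) := by
  constructor <;> decide +kernel

/-- intermediate values -/
def g2 : GSE.GZ.GC (ZMod 1000003) where
  c := ![1, 0]
  s := 88182
  m := 1
  n := 2
  z := !![999924, 26; 18, 153]
  w1 := !![939430, 353312; 179856, 286282]
  w2 := !![55789, 647859; 827131, 700833]
  h1 := ![![0, 0, 0, 0, 907807, 999363], ![383303, 940502, 0, 0, 632544, 0], ![0, 0, 383303,
    446254, 764874, 0]]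
  h2 := ![![0, 0, 0, 0, 84168, 999363], ![147574, 685744, 0, 0, 692543, 0], ![0, 0, 147574,
    318875, 290504, 0]]
  M := !![872624, 173055, 482110; 226191, 0, 527845; 922005, 62771, 0]
  N := !![0, 440502, 73778; 284675, 77439, 482008; 623285, 658534, 365346]
  y := ![794749, 956106, 249089]
  p := ![383303, 940502, 766606, 892508, 70090, 999363]
  q := ![963559, 985941, 949812, 16591, 898061, 362167]
  f1 := 480977
  f2 := 140533
  v := ![943243, 642498, 218549, 956487, 748905, 913324]
  e0 := ![251080, 817338, 886816, 852783, 230388, 0]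
  e1 := ![148573, 536292, 998645, 840701, 0, 0]
  e2 := ![691262, 173410, 302938, 50992, 63633, 0]
  mm := 798288
  p0 := 646606
  p1 := 202968
  M0 := 785103
  M1 := 789662

theorem ok2 : g2.Ok (Dn1.map (fun a : ℕ => (a : ZMod 1000003))) := by
  constructor <;> decide +kernel

/-- intermediate values -/
def g3 : GSE.GZ.GC (ZMod 1000003) where
  c := ![1, 0]
  s := 911821
  m := 1
  n := 2
  z := !![999924, 26; 18, 153]
  w1 := !![55789, 647859; 827131, 700833]
  w2 := !![939430, 353312; 179856, 286282]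
  h1 := ![![0, 0, 0, 0, 84168, 999363], ![147574, 685744, 0, 0, 692543, 0], ![0, 0, 147574,
    318875, 290504, 0]]
  h2 := ![![0, 0, 0, 0, 907807, 999363], ![383303, 940502, 0, 0, 632544, 0], ![0, 0, 383303,
    446254, 764874, 0]]
  M := !![127379, 773812, 77998; 826948, 0, 937232; 517893, 472158, 0]
  N := !![0, 715328, 376718; 559501, 922564, 341469; 926225, 517995, 634657]
  y := ![364173, 641780, 368550]
  p := ![147574, 685744, 295148, 637750, 357716, 999363]
  q := ![461355, 562781, 896855, 418302, 144299, 929982]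
  f1 := 722075
  f2 := 330245
  v := ![451478, 59549, 361814, 220180, 125516, 889162]
  e0 := ![808876, 472145, 580560, 751300, 43378, 0]
  e1 := ![292848, 97622, 744176, 811493, 0, 0]
  e2 := ![898020, 723415, 155272, 385564, 736090, 0]
  mm := 754931
  p0 := 895172
  p1 := 448182
  M0 := 354421
  M1 := 719301

theorem ok3 : g3.Ok (Dn2.map (fun a : ℕ => (a : ZMod 1000003))) := by
  constructor <;> decide +kernel

/-- intermediate values -/
def g4 : GSE.GZ.GC (ZMod 1000003) where
  c := ![1, 0]
  s := 88182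
  m := 1
  n := 2
  z := !![999924, 26; 18, 153]
  w1 := !![939430, 353312; 179856, 286282]
  w2 := !![55789, 647859; 827131, 700833]
  h1 := ![![0, 0, 0, 0, 907807, 999363], ![383303, 940502, 0, 0, 632544, 0], ![0, 0, 383303,
    446254, 764874, 0]]
  h2 := ![![0, 0, 0, 0, 84168, 999363], ![147574, 685744, 0, 0, 692543, 0], ![0, 0, 147574,
    318875, 290504, 0]]
  M := !![872624, 173055, 482110; 226191, 0, 527845; 922005, 62771, 0]
  N := !![0, 440502, 73778; 284675, 77439, 482008; 623285, 658534, 365346]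
  y := ![794749, 956106, 249089]
  p := ![383303, 940502, 766606, 892508, 70090, 999363]
  q := ![963559, 985941, 949812, 16591, 898061, 362167]
  f1 := 480977
  f2 := 140533
  v := ![943243, 642498, 218549, 956487, 748905, 913324]
  e0 := ![251080, 817338, 886816, 852783, 230388, 0]
  e1 := ![148573, 536292, 998645, 840701, 0, 0]
  e2 := ![691262, 173410, 302938, 50992, 63633, 0]
  mm := 798288
  p0 := 646606
  p1 := 202968
  M0 := 785103
  M1 := 789662

theorem ok4 : g4.Ok (Dn2.map (fun a : ℕ => (a : ZMod 1000003))) := by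
  constructor <;> decide +kernel

theorem red1 : Red 1000003 D 1 0 1 2 ((1 : ℕ) : ZMod 1000003) g1.s :=
  red_of hd1 ok1 ok2 (by decide +kernel) (by decide +kernel) (by decide +kernel)
    (by decide +kernel) (by decide +kernel) (by decide +kernel) (by decide +kernel)

theorem red2 : Red 1000003 D 1 0 1 2 ((1000003 - 1 : ℕ) : ZMod 1000003) g3.s :=
  red_of hd2 ok3 ok4 (by decide +kernel) (by decide +kernel) (by decide +kernel)
    (by decide +kernel) (by decide +kernel) (by decide +kernel) (by decide +kernel)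

theorem good {z : ℂ} (hz : z * z = ((1 : ℤ) : ℂ)) : GSN.Good (dr T.D z) :=
  goodW hu red1 red2 hz

theorem li {z : ℂ} (hz : z * z = ((1 : ℤ) : ℂ)) :
    LinearIndependent ℂ ![(dr T.D z).B, (dr T.D z).E, 1, (dr T.D z).N] := by
  refine li_of ?_
  have h := evC_ne (p := 1000003) (a := 0) (b := 0) hu (e := liE T.D) (by decide +kernel)
    (by decide +kernel) hz
  rwa [Nat.cast_zero] at h

/-- parameters of the test -/
def p3 : Pm := ⟨1, 1, 2 ^ 21, 10, 2 ^ 441⟩

/-- coefficients -/
def lS : List (E × ℕ × ℕ) := [(E.c (-20), 1, 0), (E.c 0, 0, 1), (E.c 0, 0, 0)]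

/-- coefficients -/
def lT : List (E × ℕ × ℕ) := [(E.c (-10), 1, 0), (E.c 320, 0, 1), (E.c 0, 0, 0)]

/-- coefficients -/
def lQ : List (E × ℕ × ℕ) := [(E.c (-20), 1, 0), (E.c (-320), 0, 1), (E.c (-1600), 0, 0)]

theorem dlne {z : ℂ} (hz : z * z = ((1 : ℤ) : ℂ)) : E.ev GSX.sK GSX.tK (zK z) T.dl ≠ 0 :=
  ev_ne (p := 1000003) (a := 0) (b := 0) hu (e := T.dl) (by decide +kernel)
    (by decide +kernel) hz

theorem top {z : ℂ} (hz : z * z = ((1 : ℤ) : ℂ)) :
    IntermediateField.adjoin ℂ (Set.range (par z T)) = ⊤ := by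
  refine top_of_hom (p := p3) hz (dl := T.dl) (n0 := T.n 0) (n1 := T.n 1) (m := 1) (S := lS)
    (T := lT) (Q := lQ) (by decide +kernel) (by decide +kernel) (by decide +kernel)
    (by decide +kernel) (by decide +kernel) ?_ (dlne hz) ?_ ?_
  · exact ev_ne (p := 1000003) (a := 0) (b := 0) hu (by decide +kernel)
      (by decide +kernel) hz
  · rw [par, mul_div_cancel₀ _ (dlne hz)]
  · rw [par, mul_div_cancel₀ _ (dlne hz)]

/-- the inverse -/
def L10 : Fin 8 → Fin 8 → ℕ := ![![0, 1000002, 750036, 500000, 7, 875012, 62496, 813], ![687502,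
  0, 312484, 304687, 164063, 562501, 0, 250050], ![0, 0, 0, 0, 0, 958206, 41797, 0], ![0, 0, 0, 0,
  0, 697756, 41797, 0], ![0, 0, 869778, 0, 0, 0, 0, 0], ![0, 0, 0, 130225, 869778, 0, 0, 0], ![0,
  0, 0, 260450, 869778, 0, 0, 0], ![0, 0, 0, 0, 0, 0, 0, 869778]]

/-- the inverse -/
def L11 : Fin 8 → Fin 8 → ℕ := ![![0, 1000002, 750036, 500000, 7, 875012, 62496, 813], ![687502,
  0, 312484, 304687, 164063, 562501, 0, 250050], ![0, 0, 0, 0, 0, 958206, 41797, 0], ![0, 0, 0, 0,
  0, 697756, 41797, 0], ![0, 0, 869778, 0, 0, 0, 0, 0], ![0, 0, 0, 130225, 869778, 0, 0, 0], ![0,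
  0, 0, 260450, 869778, 0, 0, 0], ![0, 0, 0, 0, 0, 0, 0, 869778]]

theorem iv10 : invChk 1000003 1 2 1 (jf J1) L10 = true := by decide +kernel

theorem iv11 : invChk 1000003 1 2 (1000003 - 1) (jf J1) L11 = true := by decide +kernel

theorem jd1 {z : ℂ} (hz : z * z = ((1 : ℤ) : ℂ)) :
    IsUnit (jm GSX.sK GSX.tK (zK z) (jf J1)).det := jdet hu iv10 iv11 hz

/-- the inverse -/
def L20 : Fin 8 → Fin 8 → ℕ := ![![298994, 258536, 734801, 679948, 840637, 618809, 697765, 58507],
  ![910221, 164627, 712628, 942426, 596224, 371922, 462517, 705085], ![406414, 645666, 935090,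
  788381, 279171, 259366, 371964, 725183], ![991987, 835232, 841701, 204614, 380934, 697048,
  284974, 988785], ![585573, 96304, 261350, 582839, 258843, 510192, 228343, 88381], ![26855,
  120098, 611390, 866710, 221927, 799827, 751438, 662819], ![823651, 187940, 863696, 833556,
  601801, 346144, 830740, 483956], ![802808, 885978, 336424, 104059, 972265, 568958, 813255,
  377276]]

/-- the inverse -/
def L21 : Fin 8 → Fin 8 → ℕ := ![![298994, 258536, 734801, 679948, 840637, 618809, 697765, 58507],
  ![910221, 164627, 712628, 942426, 596224, 371922, 462517, 705085], ![406414, 645666, 935090,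
  788381, 279171, 259366, 371964, 725183], ![991987, 835232, 841701, 204614, 380934, 697048,
  284974, 988785], ![585573, 96304, 261350, 582839, 258843, 510192, 228343, 88381], ![26855,
  120098, 611390, 866710, 221927, 799827, 751438, 662819], ![823651, 187940, 863696, 833556,
  601801, 346144, 830740, 483956], ![802808, 885978, 336424, 104059, 972265, 568958, 813255,
  377276]]

theorem iv20 : invChk 1000003 1 1 1 (dg8 T.tp.m (jf J2)) L20 = true := by decide +kernel

theorem iv21 : invChk 1000003 1 1 (1000003 - 1) (dg8 T.tp.m (jf J2)) L21 = true := by decide +kernel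

theorem jd2 {z : ℂ} (hz : z * z = ((1 : ℤ) : ℂ)) :
    IsUnit (jm GSX.sK GSX.tK (zK z) (dg8 T.tp.m (jf J2))).det := jdet hu iv20 iv21 hz


end Pool.Agent.GSK0
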