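import Pool.Agent.GSK0.Tab1

set_option autoImplicit false
set_option maxRecDepth 100000

noncomputable section

namespace Pool.Agent.GSK0

open Pool.Agent.GSW

/-- parameters -/
def p1 : Pm := ⟨1, 1, 2 ^ 54, 25, 2 ^ 15050⟩

theorem x0 : lnk p1 ((xh2 X).tp.q 0) (nf XN 0) = true := by decide +kernel

theorem x1 : lnk p1 ((xh2 X).tp.q 1) (nf XN 1) = true := by decide +kernel

theorem x2 : lnk p1 ((xh2 X).tp.q 2) (nf XN 2) = true := by decide +kernel

theorem x3 : lnk p1 ((xh2 X).tp.q 3) (nf XN 3) = true := by decide +kernel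

theorem x4 : lnk p1 ((xh2 X).tp.q 4) (nf XN 4) = true := by decide +kernel

theorem x5 : lnk p1 ((xh2 X).tp.q 5) (nf XN 5) = true := by decide +kernel

theorem x6 : lnk p1 ((xh2 X).tp.q 6) (nf XN 6) = true := by decide +kernel

theorem x7 : lnk p1 ((xh2 X).tp.q 7) (nf XN 7) = true := by decide +kernel

theorem xV : eqM p1 (V8 (xh2 X)) (jf V) = true := by decide +kernel

theorem xA : eqM p1 (AD8 (xh2 X)) (rf A) = true := by decide +kernel


end Pool.Agent.GSK0
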