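import Pool.Agent.GSE.Fin
import Pool.Agent.GSK0.Cubic

set_option autoImplicit false
set_option maxRecDepth 100000

noncomputable section

namespace Pool.Agent.GSK0

open Pool.Agent GSX

/-- certificate for the chart 0 -/
def c0 : Fin 6 → GSE.NP 0 :=
  (![0, 0, 0, 0, 0, 3] : Fin 6 → ℤ)

/-- certificate for the chart 1 -/
def c1 : Fin 6 → GSE.NP 1 :=
  (![[], [], [], [2], [], []] : Fin 6 → List (ℤ))

/-- certificate for the chart 2 -/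
def c2 : Fin 6 → GSE.NP 2 :=
  (![[[1]], [], [], [[2]], [[2]], []] : Fin 6 → List (List (ℤ)))

/-- certificate for the chart 3 -/
def c3 : Fin 6 → GSE.NP 3 :=
  (![[[[2,1]],[[4]]], [[[1]],[[4]]], [[[1]]], [[[4,2],[1]],[[1]]], [[[0,2],[1]]],
    []] : Fin 6 → List (List (List (ℤ))))

/-- certificate for the chart 4 -/
def c4 : Fin 6 → GSE.NP 4 :=
  (![[[[[1,1,1],[3,2],[2]],[[4,2],[4]],[[1]]],[[[1]]]], [[[[4,2],[0,2],[3]],[[3,2],[1]],[[2]]],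
    [[[4,4]],[[4]]]], [[[[3,1,3],[0,2],[3]],[[3,2],[3]],[[3]]],[[[4]],[[4]]]], [[[[1,4,1],[4,3]],
    [[2,4],[2]],[[3]]],[[[1,3]]]], [[[[4,0,1],[2,1],[1]],[[0,1],[1]]],[[[3]]]], [[[[1,2],[3,
    1]]]]] : Fin 6 → List (List (List (List (ℤ)))))

/-- certificate for the chart 5 -/
def c5 : Fin 6 → GSE.NP 5 :=
  (![[[[[[4,1,0,4,2],[2,0,3],[2,0,2],[1],[3]],[[2,1,1,3],[2,3,4],[3,4],[3]],[[1,4],[3,1],[2]],[[4,
    3],[1]],[[4]]],[[[4,4,3],[2,1,1],[3,1],[2]],[[1,3,2],[0,3],[1]],[[2]]],[[[],[3],[1]]]],[[[[0,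
    1,0,3],[0,0,4],[1,1]],[[3,3,3],[0,1],[2]],[[1,3],[4]],[[4]]],[[[4,1],[1,3],[1]],[[3,4]],
    [[1]]],[[[],[2]]]]], [[[[[3,3,1,2,3],[3,1,3,3],[1,4,2],[1],[1]],[[3,4,2],[4,2],[2,2],[1]],[[0,
    2,3],[4],[1]],[[4,2],[2]],[[3]]],[[[2,4,3],[1,1],[2,4],[2]],[[2,1,4],[4,2],[3]],[[3],[4]]],
    [[[4,1],[2,3],[2]],[[3,4],[4]],[[1]]],[[[],[2]]]],[[[[2,3,4,1],[4,1,4],[1,2],[2]],[[1,2,4],[0,
    2],[4]],[[4,3],[3]]],[[[3,2],[2,1],[2]],[[1,3]],[[2]]],[[[],[4]]]]], [[[[[0,1,4,2,4],[2,0,2,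
    2],[1,1,1],[0,1],[1]],[[0,4,2,2],[2,4],[2,4],[3]],[[3,3,2],[3,4],[3]],[[1,4],[4]],[[3]]],[[[3,
    1,2,1],[1,0,1],[3]],[[3,4],[3,3]],[[2,4],[3]],[[4]]],[[[1,3,4],[2],[3]],[[2],[2]]]],[[[[2,1,1,
    3],[1,4,4],[1],[3]],[[0,4,2]],[[3,3]],[[3]]]]], [[[[[2,4,1,3],[1,3,3,2],[0,1,3],[4,2]],[[2,1,
    2,3],[2,0,2],[3,1]],[[4,2],[4,2],[4]],[[0,1]],[[3]]],[[[0,3,1,2],[3,2,4],[4,3],[1]],[[0,0,4],
    [2],[2]],[[0,4],[4]]],[[[2,1,3],[3]],[[4]]]],[[[[3,4,0,1]]]]], [[[[[4,3,0,1],[0,1,2,4],[2,2,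
    4],[1],[4]],[[1,4,3,1],[4,4,1],[3,3]],[[0,2,4],[4,1],[2]],[[2,3]]],[[[1,3,3,3],[3,1,3],[3,1],
    [3]],[[4,4,3]]]]], [[[[[1,0,4,3],[3,4,1,3],[4,2,2],[4,3],[4]],[[1,1,3,1],[0,0,4],[3,3]],[[4,0,
    2],[1,1]],[],[[2]]]]]] : Fin 6 → List (List (List (List (List (ℤ))))))

/-- the certificates -/
def c : (n : ℕ) → Fin 6 → GSE.NP n
  | 0 => c0
  | 1 => c1
  | 2 => c2
  | 3 => c3
  | 4 => c4
  | 5 => c5
  | _ + 6 => fun _ => GSE.NP.zero _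

theorem smooth : P28.PSmooth (X.map (Int.castRingHom ℂ)).F := by
  refine GSE.psmooth_of_chk X 5 (by norm_num) c fun n hn => ?_
  interval_cases n <;> decide +kernel

theorem irr : Irreducible (X.map (Int.castRingHom ℂ)).F := by
  have h : (X.map (Int.castRingHom ℂ)).F.IsHomogeneous 3 := by
    rw [← GSE.map_FZ]
    exact (GSE.hom_FZ X).map _
  exact GSE.psmooth_irr h (by norm_num) smooth

theorem nondeg : (X.map (Int.castRingHom ℂ)).NonDeg :=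
  GSE.nondeg_of (by decide +kernel) (by decide +kernel) (by decide +kernel)

theorem nsq : ¬ IsSquare (X.map (Int.castRingHom ℂ)).D2 :=
  GSE.d2_nsq X 1 (by decide +kernel)

end Pool.Agent.GSK0
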